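import Mathlib
import Pool.Agent.H4.CD.Defs
import Pool.Agent.H4.CD.Fin

/-!
# MP_941405_ag : `M ⊗ M† ≅ ω` does not force `M ≅ R` or `M ≅ ω`

Negative answer to Q1.  For every field `k` and all `a, b ≥ 2` there is an Artinian local
ring `R` (hence Cohen-Macaulay of dimension zero) with residue field `k`, `𝔪² = 0` and
canonical module `W`, and a finitely generated module `M` with `M ⊗_R Hom_R(M, W) ≅ W`
and `M ≇ R`, `M ≇ W`.  Moreover `M` is not semidualizing: it has a non-split self-extension.

The ring is the trivial extension `R = k ⋉ Hom_k(V₀, V₁)` with `dim V₀ = a`, `dim V₁ = b`, and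
`M = V₀ ⊕ V₁`.
-/

universe u

namespace Pool.Agent.Results.MP_941405_ag.Disproof

open Pool.Agent.H4.CD

theorem result (k : Type u) [Field k] (a b : ℕ) (ha : 2 ≤ a) (hb : 2 ≤ b) :
    ∃ (R : Type u) (_ : CommRing R) (_ : Algebra k R) (m : Ideal R)
      (W : Type u) (_ : AddCommGroup W) (_ : Module R W)
      (M : Type u) (_ : AddCommGroup M) (_ : Module R M)
      (E : Type u) (_ : AddCommGroup E) (_ : Module R E), All k R m W M E (a * b + 1) :=
  main k a b ha hb

end Pool.Agent.Results.MP_941405_ag.Disproof
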